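import Mathlib

/-!
# Spheres with small missing faces: definitions
-/

set_option autoImplicit false

open Finset

namespace Pool.Agent.Zk84.MissingFaces

section Defs

variable {V W : Type} [Fintype V] [DecidableEq V] [Fintype W] [DecidableEq W]

/-- `Δ` is a (finite, abstract) simplicial complex with vertices in `V`. -/
def IsComplex (Δ : Finset (Finset V)) : Prop :=
  ∅ ∈ Δ ∧ ∀ s ∈ Δ, ∀ t ⊆ s, t ∈ Δ

/-- The link of `σ` in `Δ`. -/
def link (Δ : Finset (Finset V)) (σ : Finset V) : Finset (Finset V) :=
  univ.filter fun τ => Disjoint τ σ ∧ τ ∪ σ ∈ Δ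

/-- The `ZMod 2`-chains of `Δ` in dimension `m - 1`, i.e. on the faces with `m` vertices. -/
abbrev Chain (Δ : Finset (Finset V)) (m : ℕ) : Type :=
  {s : Finset V // s ∈ Δ ∧ s.card = m} → ZMod 2

/-- The boundary map from the chains on faces with `m + 1` vertices to the chains on faces with
`m` vertices. -/
def boundary (Δ : Finset (Finset V)) (m : ℕ) : Chain Δ (m + 1) →ₗ[ZMod 2] Chain Δ m where
  toFun c := fun t => ∑ s : {s : Finset V // s ∈ Δ ∧ s.card = m + 1}, if t.1 ⊆ s.1 then c s else 0
  map_add' a b := by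
    funext t
    simp only [Pi.add_apply, ← sum_add_distrib]
    refine sum_congr rfl fun s _ => ?_
    split_ifs <;> simp
  map_smul' r a := by
    funext t
    simp only [Pi.smul_apply, RingHom.id_apply, smul_sum]
    refine sum_congr rfl fun s _ => ?_
    split_ifs <;> simp

/-- The cycles of the augmented chain complex of `Δ` on faces with `m` vertices. -/
def cycles (Δ : Finset (Finset V)) : (m : ℕ) → Submodule (ZMod 2) (Chain Δ m)
  | 0 => ⊤
  | m + 1 => LinearMap.ker (boundary Δ m)

/-- The dimension of the reduced homology group of `Δ` with coefficients in `ZMod 2`, in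
dimension `m - 1`. -/
noncomputable def betti (Δ : Finset (Finset V)) (m : ℕ) : ℕ :=
  Module.finrank (ZMod 2)
    (cycles Δ m ⧸ (LinearMap.range (boundary Δ m)).submoduleOf (cycles Δ m))

/-- `Δ` is a `(d-1)`-sphere: a pure `(d-1)`-dimensional simplicial complex such that the link of
every face `σ` (the empty face included) has the `ZMod 2`-homology of a sphere of dimension
`d - 1 - |σ|`. -/
def IsHomologySphere (d : ℕ) (Δ : Finset (Finset V)) : Prop :=
  IsComplex Δ ∧ (∀ s ∈ Δ, ∃ F ∈ Δ, s ⊆ F ∧ F.card = d) ∧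
    ∀ σ ∈ Δ, ∀ m : ℕ, betti (link Δ σ) m = if m + σ.card = d then 1 else 0

/-- `M` is a missing face of `Δ`: it is not a face, but all its proper subsets are. -/
def IsMissingFace (Δ : Finset (Finset V)) (M : Finset V) : Prop :=
  M ∉ Δ ∧ ∀ t, t ⊂ M → t ∈ Δ

/-- The class `S(i, d-1)`: the `(d-1)`-spheres whose missing faces have dimension at most `i`,
i.e. at most `i + 1` vertices. -/
def InClassS (i d : ℕ) (Δ : Finset (Finset V)) : Prop :=
  IsHomologySphere d Δ ∧ ∀ M, IsMissingFace Δ M → M.card ≤ i + 1

/-- The number of faces of `Δ` with `m` vertices, i.e. `f_{m-1}`. -/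
def fNum (Δ : Finset (Finset V)) (m : ℕ) : ℕ := (Δ.filter fun s => s.card = m).card

/-- The `h`-number `h_j = ∑_{k ≤ j} (-1)^(j-k) * choose (d-k) (d-j) * f_{k-1}`. -/
def hNum (Δ : Finset (Finset V)) (d j : ℕ) : ℤ :=
  ∑ k ∈ range (j + 1), (-1) ^ (j - k) * ((d - k).choose (d - j) : ℤ) * (fNum Δ k : ℤ)

/-- The `g`-numbers: `g_0 = 1` and `g_j = h_j - h_{j-1}` for `j ≥ 1`. -/
def gNum (Δ : Finset (Finset V)) (d : ℕ) : ℕ → ℤ
  | 0 => 1
  | j + 1 => hNum Δ d (j + 1) - hNum Δ d j

/-- The number of vertices of the `j`-th block of `K(i, d-1)`, `d = q * i + r`: the first `q`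
blocks have `i + 1` vertices, the last one has `r + 1`. -/
def blockSize (q i r : ℕ) (j : Fin (q + 1)) : ℕ := if j.val < q then i + 1 else r + 1

/-- The complex `K(i, d-1)` for `d = q * i + r`: the join of `q` copies of the boundary of the
`i`-simplex and one boundary of the `r`-simplex. Its vertices are the elements of the blocks, and
its faces are the sets which contain no block. -/
def K (q i r : ℕ) : Finset (Finset (Σ j : Fin (q + 1), Fin (blockSize q i r j))) :=
  univ.filter fun s => ∀ j, ∃ x, (⟨j, x⟩ : Σ j : Fin (q + 1), Fin (blockSize q i r j)) ∉ s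

/-- Two complexes are isomorphic: there is a bijection between their vertex sets which maps the
faces of one exactly onto the faces of the other. -/
def Isomorphic (Δ : Finset (Finset V)) (Γ : Finset (Finset W)) : Prop :=
  ∃ e : {v : V // {v} ∈ Δ} ≃ {w : W // {w} ∈ Γ}, ∀ s : Finset {v : V // {v} ∈ Δ},
    s.map (Function.Embedding.subtype _) ∈ Δ ↔
      (s.map e.toEmbedding).map (Function.Embedding.subtype _) ∈ Γ

end Defs


end Pool.Agent.Zk84.MissingFaces
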