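import Pool.Agent.Zk84.MissingFaces.Defs

/-!
# Spheres with small missing faces: the equality case of the conjectured bounds on `g`-numbers

Let `d = q * i + r` with `1 ≤ r ≤ i`. If `Δ` is a `ZMod 2`-homology `(d-1)`-sphere whose missing
faces have dimension at most `i`, and `g_j(Δ) = g_j(K(i, d-1))` for all `0 ≤ j ≤ d / 2`, then `Δ` is
isomorphic to `K(i, d-1)`.

The proof: by the Dehn-Sommerville relations `Δ` has as many facets as `K(i, d-1)`. If `M` is a
missing face with `m + 1` vertices, the facets containing all but one vertex of `M` are counted by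
`m + 1` links, which gives by induction that the number of facets is at least
`N(d) = (i + 1) ^ q * (r + 1)`. In the equality case every facet contains all but one vertex of
every missing face, which forces the missing faces to be pairwise disjoint, so that `Δ` is a join
of boundaries of simplices; and at most one of these has dimension less than `i`.
-/

set_option autoImplicit false
set_option linter.unusedSectionVars false

open Finset

namespace Pool.Agent.Zk84.MissingFaces

/-! ### Euler characteristics -/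

section Euler

variable {V : Type} [Fintype V] [DecidableEq V]

lemma finrank_chain (Δ : Finset (Finset V)) (m : ℕ) :
    Module.finrank (ZMod 2) (Chain Δ m) = fNum Δ m := by
  rw [Module.finrank_fintype_fun_eq_card, fNum, Fintype.card_subtype]
  congr 1
  ext s
  simp

lemma boundary_boundary {Δ : Finset (Finset V)} (hΔ : IsComplex Δ) (m : ℕ) (c : Chain Δ (m + 2)) :
    boundary Δ m (boundary Δ (m + 1) c) = 0 := by
  funext u
  change ∑ t : {s : Finset V // s ∈ Δ ∧ s.card = m + 1}, (if u.1 ⊆ t.1 then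
    ∑ s : {s : Finset V // s ∈ Δ ∧ s.card = m + 1 + 1}, (if t.1 ⊆ s.1 then c s else 0) else 0) = 0
  have h1 : ∀ t : {s : Finset V // s ∈ Δ ∧ s.card = m + 1},
      (if u.1 ⊆ t.1 then ∑ s : {s : Finset V // s ∈ Δ ∧ s.card = m + 1 + 1},
        (if t.1 ⊆ s.1 then c s else 0) else 0) =
      ∑ s : {s : Finset V // s ∈ Δ ∧ s.card = m + 1 + 1},
        (if u.1 ⊆ t.1 ∧ t.1 ⊆ s.1 then c s else 0) := by
    intro t
    by_cases h : u.1 ⊆ t.1
    · simp [h]
    · simp [h]
  rw [sum_congr rfl fun t _ => h1 t, sum_comm]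
  refine sum_eq_zero fun s _ => ?_
  rw [← sum_filter, sum_const]
  suffices h : 2 ∣ (univ.filter fun t : {s : Finset V // s ∈ Δ ∧ s.card = m + 1} =>
      u.1 ⊆ t.1 ∧ t.1 ⊆ s.1).card by
    obtain ⟨k, hk⟩ := h
    rw [hk, mul_comm, mul_smul]
    have : (2 : ℕ) • c s = 0 := by
      rw [two_nsmul]; exact CharTwo.add_self_eq_zero _
    rw [this, smul_zero]
  by_cases hus : u.1 ⊆ s.1
  · -- exactly two such `t`
    have hcard : (s.1 \ u.1).card = 2 := by
      rw [card_sdiff_of_subset hus, s.2.2, u.2.2]; omega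
    have : (univ.filter fun t : {s : Finset V // s ∈ Δ ∧ s.card = m + 1} =>
        u.1 ⊆ t.1 ∧ t.1 ⊆ s.1).card = (s.1 \ u.1).card := by
      symm
      refine card_bij (fun v hv => ⟨insert v u.1, ?_, ?_⟩) ?_ ?_ ?_
      · refine hΔ.2 _ s.2.1 _ ?_
        intro w hw
        rcases mem_insert.1 hw with rfl | hw
        · exact (mem_sdiff.1 hv).1
        · exact hus hw
      · rw [card_insert_of_notMem (mem_sdiff.1 hv).2, u.2.2]
      · intro v hv
        simp only [mem_filter, mem_univ, true_and]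
        refine ⟨subset_insert _ _, ?_⟩
        intro w hw
        rcases mem_insert.1 hw with rfl | hw
        · exact (mem_sdiff.1 hv).1
        · exact hus hw
      · intro v hv w hw hvw
        have h2 : insert v u.1 = insert w u.1 := congrArg Subtype.val hvw
        have h3 : v ∈ insert w u.1 := h2 ▸ mem_insert_self _ _
        rcases mem_insert.1 h3 with h | h
        · exact h
        · exact absurd h (mem_sdiff.1 hv).2
      · rintro ⟨t, ht⟩ htm
        simp only [mem_filter, mem_univ, true_and] at htm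
        have h4 : (t \ u.1).card = 1 := by
          rw [card_sdiff_of_subset htm.1, ht.2, u.2.2]; omega
        obtain ⟨v, hv⟩ := card_eq_one.1 h4
        have hv' : v ∈ t \ u.1 := by rw [hv]; exact mem_singleton_self _
        refine ⟨v, mem_sdiff.2 ⟨htm.2 (mem_sdiff.1 hv').1, (mem_sdiff.1 hv').2⟩, ?_⟩
        apply Subtype.ext
        change insert v u.1 = t
        rw [← sdiff_union_of_subset htm.1, hv]
        rfl
    rw [this, hcard]
  · have : (univ.filter fun t : {s : Finset V // s ∈ Δ ∧ s.card = m + 1} =>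
        u.1 ⊆ t.1 ∧ t.1 ⊆ s.1) = ∅ := by
      ext t
      simp only [mem_filter, mem_univ, true_and, notMem_empty, iff_false]
      rintro ⟨h1, h2⟩
      exact hus (h1.trans h2)
    rw [this]; simp

lemma range_le_cycles {Δ : Finset (Finset V)} (hΔ : IsComplex Δ) (m : ℕ) :
    LinearMap.range (boundary Δ m) ≤ cycles Δ m := by
  cases m with
  | zero => exact le_top
  | succ m =>
    rintro _ ⟨c, rfl⟩
    exact boundary_boundary hΔ m c

lemma betti_add {Δ : Finset (Finset V)} (hΔ : IsComplex Δ) (m : ℕ) :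
    betti Δ m + Module.finrank (ZMod 2) (LinearMap.range (boundary Δ m)) =
      Module.finrank (ZMod 2) (cycles Δ m) := by
  have h1 := Submodule.finrank_quotient_add_finrank
    ((LinearMap.range (boundary Δ m)).submoduleOf (cycles Δ m))
  have h2 : Module.finrank (ZMod 2) ((LinearMap.range (boundary Δ m)).submoduleOf (cycles Δ m)) =
      Module.finrank (ZMod 2) (LinearMap.range (boundary Δ m)) :=
    (Submodule.submoduleOfEquivOfLe (range_le_cycles hΔ m)).finrank_eq
  rw [h2] at h1
  exact h1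

lemma cycles_succ (Δ : Finset (Finset V)) (m : ℕ) :
    Module.finrank (ZMod 2) (cycles Δ (m + 1)) +
      Module.finrank (ZMod 2) (LinearMap.range (boundary Δ m)) = fNum Δ (m + 1) := by
  rw [add_comm, ← finrank_chain]
  exact LinearMap.finrank_range_add_finrank_ker (boundary Δ m)

lemma cycles_zero (Δ : Finset (Finset V)) :
    Module.finrank (ZMod 2) (cycles Δ 0) = fNum Δ 0 := by
  rw [← finrank_chain]
  exact finrank_top _ _

lemma euler_partial {Δ : Finset (Finset V)} (hΔ : IsComplex Δ) (N : ℕ) :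
    ∑ m ∈ range (N + 1), (-1 : ℤ) ^ m * (fNum Δ m : ℤ) =
      ∑ m ∈ range (N + 1), (-1 : ℤ) ^ m * (betti Δ m : ℤ) +
        (-1) ^ N * (Module.finrank (ZMod 2) (LinearMap.range (boundary Δ N)) : ℤ) := by
  induction N with
  | zero =>
    have h1 := betti_add hΔ 0
    have h2 := cycles_zero Δ
    simp only [zero_add, range_one, sum_singleton, pow_zero, one_mul]
    rw [← h2, ← h1]; push_cast; ring
  | succ N ih =>
    rw [sum_range_succ, ih, sum_range_succ _ (N + 1)]
    have h1 := betti_add hΔ (N + 1)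
    have h2 := cycles_succ Δ N
    rw [← h2, ← h1]; push_cast; ring

lemma fNum_eq_zero {Δ : Finset (Finset V)} {m : ℕ} (hm : Fintype.card V < m) : fNum Δ m = 0 := by
  rw [fNum, card_eq_zero, filter_eq_empty_iff]
  intro s _ h
  have := card_le_univ s
  omega

lemma euler_eq {Δ : Finset (Finset V)} (hΔ : IsComplex Δ) :
    ∑ s ∈ Δ, (-1 : ℤ) ^ s.card =
      ∑ m ∈ range (Fintype.card V + 1), (-1 : ℤ) ^ m * (betti Δ m : ℤ) := by
  have h1 := euler_partial hΔ (Fintype.card V)
  have h2 : Module.finrank (ZMod 2) (LinearMap.range (boundary Δ (Fintype.card V))) = 0 := by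
    have h3 := cycles_succ Δ (Fintype.card V)
    rw [fNum_eq_zero (Nat.lt_succ_self _)] at h3
    omega
  rw [h2] at h1
  simp only [Nat.cast_zero, mul_zero, add_zero] at h1
  rw [← h1]
  have h4 : ∀ s ∈ Δ, s.card ∈ range (Fintype.card V + 1) := fun s _ =>
    mem_range.2 (Nat.lt_succ_of_le (card_le_univ s))
  rw [← sum_fiberwise_of_maps_to h4]
  refine sum_congr rfl fun m _ => ?_
  rw [sum_congr rfl (g := fun _ => (-1 : ℤ) ^ m), sum_const, fNum, nsmul_eq_mul, mul_comm]
  intro s hs
  rw [(mem_filter.1 hs).2]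

lemma link_isComplex {Δ : Finset (Finset V)} (hΔ : IsComplex Δ) {σ : Finset V} (hσ : σ ∈ Δ) :
    IsComplex (link Δ σ) := by
  refine ⟨?_, ?_⟩
  · simp [link, hσ]
  · intro s hs t hts
    simp only [link, mem_filter, mem_univ, true_and] at hs ⊢
    exact ⟨hs.1.mono_left hts, hΔ.2 _ hs.2 _ (union_subset_union hts (Subset.refl _))⟩

/-- The Euler property of a complex. -/
def Eulerian (d : ℕ) (Δ : Finset (Finset V)) : Prop :=
  ∀ σ ∈ Δ, ∑ τ ∈ Δ.filter (fun τ => σ ⊆ τ), (-1 : ℤ) ^ τ.card = (-1) ^ d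

lemma eulerian_of_sphere {d : ℕ} {Δ : Finset (Finset V)} (h : IsHomologySphere d Δ) :
    Eulerian d Δ := by
  intro σ hσ
  obtain ⟨hc, hp, hb⟩ := h
  have hcard : σ.card ≤ d := by
    obtain ⟨F, _, hF, hFd⟩ := hp σ hσ
    rw [← hFd]; exact card_le_card hF
  have h1 := euler_eq (link_isComplex hc hσ)
  have h2 : ∑ m ∈ range (Fintype.card V + 1), (-1 : ℤ) ^ m * (betti (link Δ σ) m : ℤ) =
      (-1) ^ (d - σ.card) := by
    have hle : d ≤ Fintype.card V := by
      obtain ⟨F, _, _, hFd⟩ := hp σ hσ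
      rw [← hFd]; exact card_le_univ F
    rw [sum_eq_single (d - σ.card)]
    · rw [hb σ hσ, if_pos (by omega)]; simp
    · intro m _ hm
      rw [hb σ hσ, if_neg (by omega)]; simp
    · intro hm
      exact absurd (mem_range.2 (by omega)) hm
  rw [h2] at h1
  have h3 : ∑ τ ∈ Δ.filter (fun τ => σ ⊆ τ), (-1 : ℤ) ^ τ.card =
      ∑ s ∈ link Δ σ, (-1 : ℤ) ^ (s.card + σ.card) := by
    symm
    refine sum_bij' (fun s _ => s ∪ σ) (fun t _ => t \ σ) ?_ ?_ ?_ ?_ ?_
    · intro s hs
      simp only [link, mem_filter, mem_univ, true_and] at hs ⊢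
      exact ⟨hs.2, subset_union_right⟩
    · intro t ht
      simp only [link, mem_filter, mem_univ, true_and] at ht ⊢
      refine ⟨sdiff_disjoint, ?_⟩
      rw [sdiff_union_of_subset ht.2]; exact ht.1
    · intro s hs
      simp only [link, mem_filter, mem_univ, true_and] at hs
      exact union_sdiff_cancel_right hs.1
    · intro t ht
      simp only [mem_filter] at ht
      exact sdiff_union_of_subset ht.2
    · intro s hs
      simp only [link, mem_filter, mem_univ, true_and] at hs
      rw [card_union_of_disjoint hs.1]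
  rw [h3]
  simp only [pow_add]
  rw [← sum_mul, h1, ← pow_add]
  congr 1
  omega

end Euler


/-! ### The `h`-vector -/

section HVector

variable {V : Type} [Fintype V] [DecidableEq V]

open Polynomial in
/-- The `h`-polynomial. -/
noncomputable def hPoly (d : ℕ) (Δ : Finset (Finset V)) : ℤ[X] :=
  ∑ s ∈ Δ, X ^ s.card * (1 - X) ^ (d - s.card)

open Polynomial in
/-- The reversed `h`-polynomial. -/
noncomputable def hRev (d : ℕ) (Δ : Finset (Finset V)) : ℤ[X] :=
  ∑ s ∈ Δ, (X - C 1) ^ (d - s.card)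

lemma sum_by_card (Δ : Finset (Finset V)) {n : ℕ} (hn : ∀ s ∈ Δ, s.card ≤ n) (φ : ℕ → ℤ) :
    ∑ s ∈ Δ, φ s.card = ∑ k ∈ range (n + 1), φ k * (fNum Δ k : ℤ) := by
  have h4 : ∀ s ∈ Δ, s.card ∈ range (n + 1) := fun s hs => mem_range.2 (Nat.lt_succ_of_le (hn s hs))
  rw [← sum_fiberwise_of_maps_to h4]
  refine sum_congr rfl fun m _ => ?_
  rw [sum_congr rfl (g := fun _ => φ m), sum_const, fNum, nsmul_eq_mul, mul_comm]
  intro s hs
  rw [(mem_filter.1 hs).2]

open Polynomial in
lemma coeff_X_sub_one_pow (n k : ℕ) :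
    ((X - C 1 : ℤ[X]) ^ n).coeff k = (-1) ^ (n - k) * (n.choose k : ℤ) := by
  have h : (X - C 1 : ℤ[X]) = X + C (-1) := by simp [sub_eq_add_neg]
  rw [h, coeff_X_add_C_pow]

open Polynomial in
lemma coeff_one_sub_X_pow (n k : ℕ) : ((1 - X : ℤ[X]) ^ n).coeff k = (-1) ^ k * (n.choose k : ℤ) := by
  have h1 : (1 - X : ℤ[X]) ^ n = (-1) ^ n * (X - C 1) ^ n := by
    rw [← mul_pow]; congr 1; simp
  have h2 : ((-1 : ℤ[X]) ^ n) = C ((-1 : ℤ) ^ n) := by simp
  rw [h1, h2, coeff_C_mul, coeff_X_sub_one_pow]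
  by_cases hk : k ≤ n
  · rw [← mul_assoc, ← pow_add]
    congr 1
    obtain ⟨m, rfl⟩ := Nat.exists_eq_add_of_le hk
    rw [Nat.add_sub_cancel_left, pow_add, pow_add]
    have : ((-1 : ℤ) ^ m) * (-1) ^ m = 1 := by rw [← mul_pow]; simp
    rw [mul_assoc, this, mul_one]
  · rw [Nat.choose_eq_zero_of_lt (by omega)]; simp

open Polynomial in
lemma hNum_eq_coeff {d : ℕ} {Δ : Finset (Finset V)} (hc : ∀ s ∈ Δ, s.card ≤ d) {j : ℕ}
    (hj : j ≤ d) : hNum Δ d j = (hPoly d Δ).coeff j := by
  have h1 : (hPoly d Δ).coeff j = ∑ s ∈ Δ, (fun k : ℕ => if k ≤ j then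
      (-1 : ℤ) ^ (j - k) * ((d - k).choose (d - j) : ℤ) else 0) s.card := by
    rw [hPoly, finsetSum_coeff]
    refine sum_congr rfl fun s hs => ?_
    rw [coeff_X_pow_mul']
    change _ = if s.card ≤ j then _ else _
    split_ifs with h
    · rw [coeff_one_sub_X_pow]
      congr 2
      rw [← Nat.choose_symm (by omega)]
      congr 1
      omega
    · rfl
  rw [h1, sum_by_card Δ hc (fun k : ℕ => if k ≤ j then
      (-1 : ℤ) ^ (j - k) * ((d - k).choose (d - j) : ℤ) else 0), hNum]
  have h2 : range (j + 1) ⊆ range (d + 1) := range_mono (by omega)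
  rw [← sum_subset h2]
  · refine sum_congr rfl fun k hk => ?_
    rw [if_pos (Nat.lt_succ_iff.1 (mem_range.1 hk))]
  · intro k _ hk
    rw [if_neg (by intro h; exact hk (mem_range.2 (by omega))), zero_mul]

open Polynomial in
lemma hNum_eq_coeff_rev {d : ℕ} {Δ : Finset (Finset V)} (hc : ∀ s ∈ Δ, s.card ≤ d) {j : ℕ}
    (hj : j ≤ d) : hNum Δ d (d - j) = (hRev d Δ).coeff j := by
  have h1 : (hRev d Δ).coeff j = ∑ s ∈ Δ, (fun k : ℕ =>
      (-1 : ℤ) ^ (d - k - j) * ((d - k).choose j : ℤ)) s.card := by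
    rw [hRev, finsetSum_coeff]
    refine sum_congr rfl fun s hs => ?_
    rw [coeff_X_sub_one_pow]
  rw [h1, sum_by_card Δ hc (fun k : ℕ =>
      (-1 : ℤ) ^ (d - k - j) * ((d - k).choose j : ℤ)), hNum]
  have h2 : range (d - j + 1) ⊆ range (d + 1) := range_mono (by omega)
  rw [← sum_subset h2]
  · refine sum_congr rfl fun k hk => ?_
    have hk' := mem_range.1 hk
    rw [show d - (d - j) = j by omega, show d - j - k = d - k - j by omega]
  · intro k hk0 hk
    have hk1 := mem_range.1 hk0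
    have : d - k < j := by
      by_contra h
      exact hk (mem_range.2 (by omega))
    rw [Nat.choose_eq_zero_of_lt this]; simp

open Polynomial in
lemma hPoly_eq_hRev {d : ℕ} {Δ : Finset (Finset V)} (hΔ : IsComplex Δ)
    (hc : ∀ s ∈ Δ, s.card ≤ d) (hE : Eulerian d Δ) : hPoly d Δ = hRev d Δ := by
  have h1 : hPoly d Δ = ∑ σ ∈ Δ, ∑ τ ∈ Δ.filter (fun τ => σ ⊆ τ),
      (-1 : ℤ[X]) ^ (d + τ.card) * (X ^ σ.card * (1 - X) ^ (d - σ.card)) := by
    rw [hPoly]
    refine sum_congr rfl fun σ hσ => ?_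
    rw [← sum_mul]
    have h2 : ∑ τ ∈ Δ.filter (fun τ => σ ⊆ τ), (-1 : ℤ[X]) ^ (d + τ.card) = 1 := by
      simp only [pow_add]
      rw [← mul_sum]
      have h3 := congrArg (fun z : ℤ => (C z : ℤ[X])) (hE σ hσ)
      simp only [map_sum, map_pow, map_neg, map_one] at h3
      rw [h3, ← pow_add, ← two_mul, pow_mul]; simp
    rw [h2, one_mul]
  have h4 : hRev d Δ = ∑ τ ∈ Δ, ∑ σ ∈ τ.powerset,
      (-1 : ℤ[X]) ^ (d + τ.card) * (X ^ σ.card * (1 - X) ^ (d - σ.card)) := by
    rw [hRev]
    refine sum_congr rfl fun τ hτ => ?_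
    have hτd := hc τ hτ
    have h5 : ∀ σ ∈ τ.powerset, (-1 : ℤ[X]) ^ (d + τ.card) * (X ^ σ.card * (1 - X) ^ (d - σ.card)) =
        ((-1 : ℤ[X]) ^ (d + τ.card) * (1 - X) ^ (d - τ.card)) *
          (X ^ σ.card * (1 - X) ^ (τ.card - σ.card)) := by
      intro σ hσ
      have h6 := card_le_card (mem_powerset.1 hσ)
      have h7 : d - σ.card = (d - τ.card) + (τ.card - σ.card) := by omega
      rw [h7, pow_add]; ring
    rw [sum_congr rfl h5, ← mul_sum]
    have h8 : ∑ σ ∈ τ.powerset, (X : ℤ[X]) ^ σ.card * (1 - X) ^ (τ.card - σ.card) = 1 := by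
      rw [Finset.sum_pow_mul_eq_add_pow]; simp
    rw [h8, mul_one]
    have h9 : (X - C 1 : ℤ[X]) = (-1) * (1 - X) := by simp
    rw [h9, mul_pow]
    congr 1
    obtain ⟨e, rfl⟩ := Nat.exists_eq_add_of_le hτd
    rw [Nat.add_sub_cancel_left, show τ.card + e + τ.card = e + 2 * τ.card by ring, pow_add,
      pow_mul]
    simp
  rw [h1, h4]
  rw [sum_sigma', sum_sigma']
  refine sum_bij' (fun p _ => ⟨p.2, p.1⟩) (fun p _ => ⟨p.2, p.1⟩) ?_ ?_ ?_ ?_ ?_
  · rintro ⟨σ, τ⟩ h
    simp only [mem_sigma, mem_filter, mem_powerset] at h ⊢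
    exact ⟨h.2.1, h.2.2⟩
  · rintro ⟨τ, σ⟩ h
    simp only [mem_sigma, mem_filter, mem_powerset] at h ⊢
    exact ⟨hΔ.2 _ h.1 _ h.2, h.1, h.2⟩
  · rintro ⟨σ, τ⟩ _; rfl
  · rintro ⟨σ, τ⟩ _; rfl
  · rintro ⟨σ, τ⟩ _; rfl

/-- The Dehn–Sommerville relations. -/
lemma dehnSommerville {d : ℕ} {Δ : Finset (Finset V)} (hΔ : IsComplex Δ)
    (hc : ∀ s ∈ Δ, s.card ≤ d) (hE : Eulerian d Δ) {j : ℕ} (hj : j ≤ d) :
    hNum Δ d (d - j) = hNum Δ d j := by
  rw [hNum_eq_coeff_rev hc hj, ← hPoly_eq_hRev hΔ hc hE, ← hNum_eq_coeff hc hj]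

open Polynomial in
lemma sum_hNum {d : ℕ} {Δ : Finset (Finset V)} (hc : ∀ s ∈ Δ, s.card ≤ d) :
    ∑ j ∈ range (d + 1), hNum Δ d j = fNum Δ d := by
  have h1 : ∑ j ∈ range (d + 1), hNum Δ d j = (hPoly d Δ).eval 1 := by
    rw [eval_eq_sum_range' (n := d + 1)]
    · refine sum_congr rfl fun j hj => ?_
      rw [hNum_eq_coeff hc (Nat.lt_succ_iff.1 (mem_range.1 hj))]; simp
    · rw [Nat.lt_succ_iff, hPoly]
      refine natDegree_sum_le_of_forall_le _ _ fun s hs => ?_
      refine natDegree_mul_le.trans ?_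
      have h2 : (X ^ s.card : ℤ[X]).natDegree ≤ s.card := natDegree_X_pow_le _
      have h3 : ((1 - X : ℤ[X]) ^ (d - s.card)).natDegree ≤ d - s.card := by
        refine natDegree_pow_le.trans ?_
        have : (1 - X : ℤ[X]).natDegree ≤ 1 := by
          refine (natDegree_sub_le _ _).trans ?_
          simp
        calc (d - s.card) * (1 - X : ℤ[X]).natDegree ≤ (d - s.card) * 1 := Nat.mul_le_mul_left _ this
          _ = d - s.card := mul_one _
      have h4 := hc s hs
      omega
  rw [h1, hPoly, eval_finsetSum, fNum, card_filter]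
  push_cast
  refine sum_congr rfl fun s hs => ?_
  have h4 := hc s hs
  by_cases h : s.card = d
  · simp [h]
  · rw [if_neg h]
    simp only [eval_mul, eval_pow, eval_X, one_pow, one_mul, eval_sub, eval_one, sub_self]
    rw [zero_pow (by omega)]

lemma hNum_zero {d : ℕ} {Δ : Finset (Finset V)} (hΔ : IsComplex Δ) : hNum Δ d 0 = 1 := by
  have : fNum Δ 0 = 1 := by
    rw [fNum, card_eq_one]
    refine ⟨∅, ?_⟩
    ext s
    simp only [mem_filter, card_eq_zero, mem_singleton]
    exact ⟨fun h => h.2, fun h => ⟨h ▸ hΔ.1, h⟩⟩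
  simp [hNum, this]

lemma hNum_eq_of_gNum_eq {W : Type} [Fintype W] [DecidableEq W] {d : ℕ} {Δ : Finset (Finset V)}
    {Γ : Finset (Finset W)} (hΔ : IsComplex Δ) (hΓ : IsComplex Γ)
    (hg : ∀ j ≤ d / 2, gNum Δ d j = gNum Γ d j) : ∀ j ≤ d / 2, hNum Δ d j = hNum Γ d j := by
  intro j
  induction j with
  | zero => intro _; rw [hNum_zero hΔ, hNum_zero hΓ]
  | succ j ih =>
    intro hj
    have h1 := hg (j + 1) hj
    have h2 := ih (by omega)
    simp only [gNum] at h1
    linarith

lemma fNum_eq_of_gNum_eq {W : Type} [Fintype W] [DecidableEq W] {d : ℕ} {Δ : Finset (Finset V)}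
    {Γ : Finset (Finset W)} (hΔ : IsComplex Δ) (hΓ : IsComplex Γ)
    (hc : ∀ s ∈ Δ, s.card ≤ d) (hE : Eulerian d Δ)
    (hc' : ∀ s ∈ Γ, s.card ≤ d) (hE' : Eulerian d Γ)
    (hg : ∀ j ≤ d / 2, gNum Δ d j = gNum Γ d j) : fNum Δ d = fNum Γ d := by
  have h1 := hNum_eq_of_gNum_eq hΔ hΓ hg
  have h2 : ∀ j ≤ d, hNum Δ d j = hNum Γ d j := by
    intro j hj
    by_cases h : j ≤ d / 2
    · exact h1 j h
    · have h3 : hNum Δ d (d - j) = hNum Γ d (d - j) := h1 (d - j) (by omega)
      rw [dehnSommerville hΔ hc hE hj, dehnSommerville hΓ hc' hE' hj] at h3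
      exact h3
  have h3 := sum_hNum hc
  have h4 := sum_hNum hc'
  have h5 : ∑ j ∈ range (d + 1), hNum Δ d j = ∑ j ∈ range (d + 1), hNum Γ d j :=
    sum_congr rfl fun j hj => h2 j (Nat.lt_succ_iff.1 (mem_range.1 hj))
  rw [h3, h4] at h5
  exact_mod_cast h5

end HVector


/-! ### The complex `K` -/

section KComplex

variable (q i r : ℕ)

/-- The vertices of `K`. -/
abbrev KV : Type := Σ j : Fin (q + 1), Fin (blockSize q i r j)

lemma K_isComplex (hi : 1 ≤ i) (hr : 1 ≤ r) : IsComplex (K q i r) := by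
  have hpos : ∀ j, 0 < blockSize q i r j := by
    intro j; unfold blockSize; split_ifs <;> omega
  refine ⟨?_, ?_⟩
  · simp only [K, mem_filter, mem_univ, true_and, notMem_empty, not_false_eq_true]
    intro j
    exact ⟨⟨0, hpos j⟩, trivial⟩
  · intro s hs t hts
    simp only [K, mem_filter, mem_univ, true_and] at hs ⊢
    intro j
    obtain ⟨x, hx⟩ := hs j
    exact ⟨x, fun h => hx (hts h)⟩

lemma sum_blockSize : ∑ j : Fin (q + 1), blockSize q i r j = (q * i + r) + (q + 1) := by
  rw [Fin.sum_univ_castSucc]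
  simp only [blockSize, Fin.val_castSucc, Fin.is_lt, if_true, Fin.val_last, lt_irrefl, if_false,
    sum_const, card_univ, Fintype.card_fin, smul_eq_mul]
  ring

lemma prod_blockSize : ∏ j : Fin (q + 1), blockSize q i r j = (i + 1) ^ q * (r + 1) := by
  rw [Fin.prod_univ_castSucc]
  simp only [blockSize, Fin.val_castSucc, Fin.is_lt, if_true, Fin.val_last, lt_irrefl, if_false,
    prod_const, card_univ, Fintype.card_fin]

/-- the elements of `s` in the block `j` -/
def slice (s : Finset (KV q i r)) (j : Fin (q + 1)) : Finset (Fin (blockSize q i r j)) :=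
  univ.filter fun x => (⟨j, x⟩ : KV q i r) ∈ s

variable {q i r}

lemma mem_slice {s : Finset (KV q i r)} {j : Fin (q + 1)} {x : Fin (blockSize q i r j)} :
    x ∈ slice q i r s j ↔ (⟨j, x⟩ : KV q i r) ∈ s := by simp [slice]

lemma sigma_slice (s : Finset (KV q i r)) : (univ : Finset (Fin (q + 1))).sigma (slice q i r s) = s := by
  ext ⟨j, x⟩
  simp [mem_slice]

lemma slice_sigma (p : ∀ j : Fin (q + 1), Finset (Fin (blockSize q i r j))) :
    slice q i r ((univ : Finset (Fin (q + 1))).sigma p) = p := by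
  funext j
  ext x
  simp [mem_slice]

lemma mem_K {s : Finset (KV q i r)} : s ∈ K q i r ↔ ∀ j, slice q i r s j ≠ univ := by
  simp only [K, mem_filter, mem_univ, true_and]
  refine forall_congr' fun j => ?_
  constructor
  · rintro ⟨x, hx⟩ h
    have := mem_univ x
    rw [← h, mem_slice] at this
    exact hx this
  · intro h
    by_contra h2
    push Not at h2
    exact h (eq_univ_iff_forall.2 fun x => mem_slice.2 (h2 x))

lemma card_eq_sum_slice (s : Finset (KV q i r)) : s.card = ∑ j, (slice q i r s j).card := by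
  conv_lhs => rw [← sigma_slice s]
  rw [card_sigma]

lemma K_card_le {s : Finset (KV q i r)} (hs : s ∈ K q i r) : s.card ≤ q * i + r := by
  rw [mem_K] at hs
  have h1 : ∀ j, (slice q i r s j).card + 1 ≤ blockSize q i r j := by
    intro j
    obtain ⟨x, hx⟩ : ∃ x, x ∉ slice q i r s j := by
      have := hs j
      rw [Ne, eq_univ_iff_forall] at this
      push Not at this
      exact this
    have h2 : (slice q i r s j).card < Fintype.card (Fin (blockSize q i r j)) :=
      card_lt_univ_of_notMem hx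
    rw [Fintype.card_fin] at h2
    exact h2
  have h3 : ∑ j, ((slice q i r s j).card + 1) ≤ ∑ j, blockSize q i r j :=
    sum_le_sum fun j _ => h1 j
  rw [sum_add_distrib, sum_blockSize, ← card_eq_sum_slice] at h3
  simp only [sum_const, card_univ, Fintype.card_fin, smul_eq_mul, mul_one] at h3
  omega

lemma K_fNum_le : fNum (K q i r) (q * i + r) ≤ (i + 1) ^ q * (r + 1) := by
  classical
  rw [← prod_blockSize]
  have h0 : Fintype.card (∀ j : Fin (q + 1), Fin (blockSize q i r j)) =
      ∏ j : Fin (q + 1), blockSize q i r j := by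
    rw [Fintype.card_pi]; simp
  rw [← h0, fNum]
  -- the facets are determined by the omitted elements
  have key : ∀ s ∈ (K q i r).filter (fun s => s.card = q * i + r),
      ∃ c : ∀ j : Fin (q + 1), Fin (blockSize q i r j), ∀ j, slice q i r s j = {c j}ᶜ := by
    intro s hs
    rw [mem_filter] at hs
    have hs1 := mem_K.1 hs.1
    have h1 : ∀ j, (slice q i r s j).card + 1 ≤ blockSize q i r j := by
      intro j
      obtain ⟨x, hx⟩ : ∃ x, x ∉ slice q i r s j := by
        have := hs1 j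
        rw [Ne, eq_univ_iff_forall] at this
        push Not at this
        exact this
      have h2 : (slice q i r s j).card < Fintype.card (Fin (blockSize q i r j)) :=
        card_lt_univ_of_notMem hx
      rw [Fintype.card_fin] at h2
      exact h2
    have h2 : ∀ j ∈ (univ : Finset (Fin (q + 1))), (slice q i r s j).card + 1 = blockSize q i r j := by
      refine (sum_eq_sum_iff_of_le fun j _ => h1 j).1 ?_
      rw [sum_add_distrib, sum_blockSize, ← card_eq_sum_slice, hs.2]
      simp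
    have h3 : ∀ j, ∃ c, slice q i r s j = {c}ᶜ := by
      intro j
      have h4 : ((slice q i r s j)ᶜ).card = 1 := by
        rw [card_compl, Fintype.card_fin]
        have := h2 j (mem_univ j)
        omega
      obtain ⟨c, hc⟩ := card_eq_one.1 h4
      exact ⟨c, by rw [← hc, compl_compl]⟩
    choose c hc using h3
    exact ⟨c, hc⟩
  have : Nonempty (∀ j : Fin (q + 1), Fin (blockSize q i r j)) :=
    ⟨fun j => ⟨0, by unfold blockSize; split_ifs <;> omega⟩⟩
  choose! c hc using key
  have h5 : ((K q i r).filter (fun s => s.card = q * i + r)).card ≤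
      (univ : Finset (∀ j : Fin (q + 1), Fin (blockSize q i r j))).card := by
    refine card_le_card_of_injOn c (fun _ _ => mem_univ _) ?_
    intro s hs t ht hst
    rw [← sigma_slice s, ← sigma_slice t]
    congr 1
    funext j
    rw [hc s hs j, hc t ht j, hst]
  exact h5

lemma sum_superset {n : ℕ} (a : Finset (Fin n)) (ha : a ≠ univ) :
    ∑ t ∈ univ.filter (fun t : Finset (Fin n) => a ⊆ t ∧ t ≠ univ), (-1 : ℤ) ^ t.card =
      (-1) ^ (n - 1) := by
  obtain ⟨x, hx⟩ : ∃ x, x ∉ a := by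
    by_contra h
    push Not at h
    exact ha (eq_univ_iff_forall.2 h)
  have hn : 0 < n := x.pos
  have h1 : ∑ t ∈ univ.filter (fun t : Finset (Fin n) => a ⊆ t), (-1 : ℤ) ^ t.card = 0 := by
    refine sum_involution (fun t _ => if x ∈ t then t.erase x else insert x t) ?_ ?_ ?_ ?_
    · intro t _
      split_ifs with h
      · have h2 := card_erase_add_one h
        rw [← h2, pow_succ]; ring
      · rw [card_insert_of_notMem h, pow_succ]; ring
    · intro t _ _
      split_ifs with h
      · intro h2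
        have := notMem_erase x t
        rw [h2] at this
        exact this h
      · intro h2
        have := mem_insert_self x t
        rw [h2] at this
        exact h this
    · intro t ht
      simp only [mem_filter, mem_univ, true_and] at ht ⊢
      split_ifs with h
      · intro y hy
        exact mem_erase.2 ⟨fun h2 => hx (h2 ▸ hy), ht hy⟩
      · exact ht.trans (subset_insert _ _)
    · intro t _
      by_cases h : x ∈ t
      · simp [h]
      · simp [h]
  have h2 : (univ.filter (fun t : Finset (Fin n) => a ⊆ t)) =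
      insert univ (univ.filter (fun t : Finset (Fin n) => a ⊆ t ∧ t ≠ univ)) := by
    ext t
    simp only [mem_filter, mem_univ, true_and, mem_insert]
    constructor
    · intro h
      by_cases h3 : t = univ
      · exact Or.inl h3
      · exact Or.inr ⟨h, h3⟩
    · rintro (h | h)
      · rw [h]; exact subset_univ _
      · exact h.1
  rw [h2, sum_insert (by simp)] at h1
  rw [card_univ, Fintype.card_fin] at h1
  obtain ⟨m, rfl⟩ := Nat.exists_eq_succ_of_ne_zero hn.ne'
  simp only [Nat.succ_eq_add_one, Nat.add_sub_cancel] at *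
  rw [pow_succ] at h1
  linarith

lemma K_eulerian (hi : 1 ≤ i) (hr : 1 ≤ r) : Eulerian (q * i + r) (K q i r) := by
  intro σ hσ
  have hσ' := mem_K.1 hσ
  have h1 : ∑ τ ∈ (K q i r).filter (fun τ => σ ⊆ τ), (-1 : ℤ) ^ τ.card =
      ∑ p ∈ Fintype.piFinset (fun j : Fin (q + 1) => univ.filter
        (fun t : Finset (Fin (blockSize q i r j)) => slice q i r σ j ⊆ t ∧ t ≠ univ)),
        ∏ j, (-1 : ℤ) ^ (p j).card := by
    refine sum_bij' (fun τ _ => slice q i r τ)
      (fun p _ => (univ : Finset (Fin (q + 1))).sigma p) ?_ ?_ ?_ ?_ ?_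
    · intro τ hτ
      rw [mem_filter] at hτ
      rw [Fintype.mem_piFinset]
      intro j
      simp only [mem_filter, mem_univ, true_and]
      refine ⟨?_, mem_K.1 hτ.1 j⟩
      intro x hx
      exact mem_slice.2 (hτ.2 (mem_slice.1 hx))
    · intro p hp
      rw [Fintype.mem_piFinset] at hp
      rw [mem_filter, mem_K]
      refine ⟨?_, ?_⟩
      · intro j
        rw [slice_sigma]
        exact (mem_filter.1 (hp j)).2.2
      · rintro ⟨j, x⟩ hx
        rw [mem_sigma]
        exact ⟨mem_univ _, (mem_filter.1 (hp j)).2.1 (mem_slice.2 hx)⟩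
    · intro τ _
      exact sigma_slice τ
    · intro p _
      exact slice_sigma p
    · intro τ _
      rw [prod_pow_eq_pow_sum, ← card_eq_sum_slice]
  rw [h1, ← prod_univ_sum (fun j : Fin (q + 1) => univ.filter
        (fun t : Finset (Fin (blockSize q i r j)) => slice q i r σ j ⊆ t ∧ t ≠ univ))
        (fun _ t => (-1 : ℤ) ^ t.card)]
  rw [prod_congr rfl fun j _ => sum_superset (slice q i r σ j) (hσ' j), prod_pow_eq_pow_sum]
  congr 1
  have h2 : ∑ j : Fin (q + 1), ((blockSize q i r j - 1) + 1) = (q * i + r) + (q + 1) := by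
    rw [← sum_blockSize]
    refine sum_congr rfl fun j _ => ?_
    have : 0 < blockSize q i r j := by unfold blockSize; split_ifs <;> omega
    omega
  rw [sum_add_distrib] at h2
  simp only [sum_const, card_univ, Fintype.card_fin, smul_eq_mul, mul_one] at h2
  omega

end KComplex


/-! ### The number of facets -/

section Count

variable {V : Type} [Fintype V] [DecidableEq V]

/-- The purely combinatorial properties of a member of `S(i, d-1)` which are needed. -/
structure Good (i d : ℕ) (Δ : Finset (Finset V)) : Prop where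
  cplx : IsComplex Δ
  pure : ∀ s ∈ Δ, ∃ F ∈ Δ, s ⊆ F ∧ F.card = d
  flip : ∀ F ∈ Δ, F.card = d → ∀ v ∈ F, ∃ w, w ∉ F ∧ insert w (F.erase v) ∈ Δ
  miss : ∀ M, IsMissingFace Δ M → M.card ≤ i + 1

lemma Good.card_le {i d : ℕ} {Δ : Finset (Finset V)} (h : Good i d Δ) {s : Finset V} (hs : s ∈ Δ) :
    s.card ≤ d := by
  obtain ⟨F, _, hF, hFd⟩ := h.pure s hs
  rw [← hFd]; exact Finset.card_le_card hF

lemma good_of_inClassS {i d : ℕ} {Δ : Finset (Finset V)} (h : InClassS i d Δ) : Good i d Δ := by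
  have hE := eulerian_of_sphere h.1
  refine ⟨h.1.1, h.1.2.1, ?_, h.2⟩
  intro F hF hFd v hv
  have hcard : ∀ s ∈ Δ, s.card ≤ d := by
    intro s hs
    obtain ⟨G, _, hG, hGd⟩ := h.1.2.1 s hs
    rw [← hGd]; exact card_le_card hG
  have hd : 0 < d := by rw [← hFd]; exact card_pos.2 ⟨v, hv⟩
  have hσ : F.erase v ∈ Δ := h.1.1.2 F hF _ (erase_subset _ _)
  have hσc : (F.erase v).card = d - 1 := by rw [card_erase_of_mem hv, hFd]
  have h1 := hE _ hσ
  have h2 : Δ.filter (fun τ => F.erase v ⊆ τ) =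
      insert (F.erase v) (Δ.filter (fun τ => F.erase v ⊆ τ ∧ τ.card = d)) := by
    ext τ
    simp only [mem_filter, mem_insert]
    constructor
    · rintro ⟨ha, hb⟩
      by_cases hc : τ.card = d
      · exact Or.inr ⟨ha, hb, hc⟩
      · left
        symm
        refine eq_of_subset_of_card_le hb ?_
        have := hcard τ ha
        omega
    · rintro (rfl | ⟨ha, hb, _⟩)
      · exact ⟨hσ, Subset.refl _⟩
      · exact ⟨ha, hb⟩
  have h3 : F.erase v ∉ Δ.filter (fun τ => F.erase v ⊆ τ ∧ τ.card = d) := by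
    intro h4
    have := (mem_filter.1 h4).2.2
    omega
  rw [h2, sum_insert h3, hσc,
    sum_congr rfl (g := fun _ => (-1 : ℤ) ^ d) (fun τ hτ => by rw [(mem_filter.1 hτ).2.2]),
    sum_const, nsmul_eq_mul] at h1
  have h5 : (Δ.filter (fun τ => F.erase v ⊆ τ ∧ τ.card = d)).card = 2 := by
    obtain ⟨e, rfl⟩ : ∃ e, d = e + 1 := ⟨d - 1, by omega⟩
    rw [Nat.add_sub_cancel, pow_succ] at h1
    rcases neg_one_pow_eq_or ℤ e with h6 | h6
    · rw [h6] at h1; omega
    · rw [h6] at h1; omega
  obtain ⟨G, hG, hGF⟩ := exists_mem_ne (by rw [h5]; norm_num :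
    1 < (Δ.filter (fun τ => F.erase v ⊆ τ ∧ τ.card = d)).card) F
  obtain ⟨hG1, hG2, hG3⟩ := mem_filter.1 hG
  have h7 : (G \ F.erase v).card = 1 := by
    rw [card_sdiff_of_subset hG2, hG3, hσc]; omega
  obtain ⟨w, hw⟩ := card_eq_one.1 h7
  have h8 : G = insert w (F.erase v) := by
    rw [← sdiff_union_of_subset hG2, hw]; rfl
  refine ⟨w, ?_, h8 ▸ hG1⟩
  intro hwF
  have hw' : w ∈ G \ F.erase v := by rw [hw]; exact mem_singleton_self _
  have h9 : w = v := by
    by_contra hne
    exact (mem_sdiff.1 hw').2 (mem_erase.2 ⟨hne, hwF⟩)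
  rw [h9, insert_erase hv] at h8
  exact hGF h8

lemma exists_missing {Δ : Finset (Finset V)} {s : Finset V} (hs : s ∉ Δ) :
    ∃ M ⊆ s, IsMissingFace Δ M := by
  induction s using Finset.strongInduction with
  | H s ih =>
    by_cases h : ∃ t, t ⊂ s ∧ t ∉ Δ
    · obtain ⟨t, ht, htΔ⟩ := h
      obtain ⟨M, hM, hM'⟩ := ih t ht htΔ
      exact ⟨M, hM.trans ht.subset, hM'⟩
    · push Not at h
      exact ⟨s, Subset.refl _, hs, h⟩

lemma IsMissingFace.erase_mem {Δ : Finset (Finset V)} {M : Finset V} (hM : IsMissingFace Δ M)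
    {v : V} (hv : v ∈ M) : M.erase v ∈ Δ := hM.2 _ (erase_ssubset hv)

/-- every element of a facet is in a missing face with at least two elements -/
lemma Good.exists_missing_of_mem {i d : ℕ} {Δ : Finset (Finset V)} (h : Good i d Δ)
    {F : Finset V} (hF : F ∈ Δ) (hFd : F.card = d) {v : V} (hv : v ∈ F) :
    ∃ M, IsMissingFace Δ M ∧ 2 ≤ M.card ∧ v ∈ M := by
  obtain ⟨w, hw, hw'⟩ := h.flip F hF hFd v hv
  have h1 : insert w F ∉ Δ := by
    intro h2
    have := h.card_le h2
    rw [card_insert_of_notMem hw] at this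
    omega
  obtain ⟨M, hM, hM'⟩ := exists_missing h1
  have hvM : v ∈ M := by
    by_contra h3
    refine hM'.1 (h.cplx.2 _ hw' _ ?_)
    intro x hx
    rcases mem_insert.1 (hM hx) with rfl | h4
    · exact mem_insert_self _ _
    · exact mem_insert_of_mem (mem_erase.2 ⟨fun h5 => h3 (h5 ▸ hx), h4⟩)
  have hwM : w ∈ M := by
    by_contra h3
    refine hM'.1 (h.cplx.2 _ hF _ ?_)
    intro x hx
    rcases mem_insert.1 (hM hx) with rfl | h4
    · exact absurd hx h3
    · exact h4
  refine ⟨M, hM', ?_, hvM⟩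
  have : ({v, w} : Finset V) ⊆ M := by
    intro x hx
    rcases mem_insert.1 hx with rfl | hx
    · exact hvM
    · rw [mem_singleton.1 hx]; exact hwM
  have h6 := card_le_card this
  have hvw : v ≠ w := fun h7 => hw (h7 ▸ hv)
  rwa [card_pair hvw] at h6

lemma Good.link {i d : ℕ} (hi : 1 ≤ i) {Δ : Finset (Finset V)} (h : Good i d Δ) {σ : Finset V}
    (hσ : σ ∈ Δ) : Good i (d - σ.card) (link Δ σ) := by
  refine ⟨link_isComplex h.cplx hσ, ?_, ?_, ?_⟩
  · intro s hs
    simp only [MissingFaces.link, mem_filter, mem_univ, true_and] at hs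
    obtain ⟨F, hF, hsF, hFd⟩ := h.pure _ hs.2
    refine ⟨F \ σ, ?_, ?_, ?_⟩
    · simp only [MissingFaces.link, mem_filter, mem_univ, true_and]
      refine ⟨sdiff_disjoint, ?_⟩
      rw [sdiff_union_of_subset (subset_union_right.trans hsF)]
      exact hF
    · intro x hx
      exact mem_sdiff.2 ⟨hsF (mem_union_left _ hx), disjoint_left.1 hs.1 hx⟩
    · rw [card_sdiff_of_subset (subset_union_right.trans hsF), hFd]
  · intro F hF hFd v hv
    simp only [MissingFaces.link, mem_filter, mem_univ, true_and] at hF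
    have hσd := h.card_le hσ
    have h1 : (F ∪ σ).card = d := by
      rw [card_union_of_disjoint hF.1, hFd]; omega
    obtain ⟨w, hw, hw'⟩ := h.flip _ hF.2 h1 v (mem_union_left _ hv)
    rw [mem_union, not_or] at hw
    refine ⟨w, hw.1, ?_⟩
    simp only [MissingFaces.link, mem_filter, mem_univ, true_and]
    refine ⟨?_, ?_⟩
    · rw [disjoint_insert_left]
      exact ⟨hw.2, hF.1.mono_left (erase_subset _ _)⟩
    · convert hw' using 1
      rw [insert_union, erase_union_distrib, erase_eq_of_notMem (disjoint_left.1 hF.1 hv)]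
  · intro M hM
    by_cases hM1 : M.card ≤ 1
    · omega
    have hMσ : Disjoint M σ := by
      rw [disjoint_left]
      intro x hx hxσ
      have h1 : {x} ∈ MissingFaces.link Δ σ := by
        refine hM.2 _ ⟨singleton_subset_iff.2 hx, fun h2 => ?_⟩
        have := card_le_card h2
        rw [card_singleton] at this
        omega
      simp only [MissingFaces.link, mem_filter, mem_univ, true_and] at h1
      exact disjoint_left.1 h1.1 (mem_singleton_self x) hxσ
    have h2 : M ∪ σ ∉ Δ := by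
      intro h3
      apply hM.1
      simp only [MissingFaces.link, mem_filter, mem_univ, true_and]
      exact ⟨hMσ, h3⟩
    obtain ⟨M', hM', hM''⟩ := exists_missing h2
    have h4 : M ⊆ M' := by
      intro x hx
      by_contra hx'
      have h5 : M.erase x ∈ MissingFaces.link Δ σ := hM.2 _ (erase_ssubset hx)
      simp only [MissingFaces.link, mem_filter, mem_univ, true_and] at h5
      refine hM''.1 (h.cplx.2 _ h5.2 _ ?_)
      intro y hy
      rcases mem_union.1 (hM' hy) with h6 | h6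
      · exact mem_union_left _ (mem_erase.2 ⟨fun h7 => hx' (h7 ▸ hy), h6⟩)
      · exact mem_union_right _ h6
    exact (card_le_card h4).trans (h.miss _ hM'')

lemma fNum_link {d : ℕ} {Δ : Finset (Finset V)} {σ : Finset V} (hσd : σ.card ≤ d) :
    fNum (link Δ σ) (d - σ.card) = (Δ.filter fun F => F.card = d ∧ σ ⊆ F).card := by
  rw [fNum]
  refine card_bij' (fun s _ => s ∪ σ) (fun F _ => F \ σ) ?_ ?_ ?_ ?_
  · intro s hs
    simp only [link, mem_filter, mem_univ, true_and] at hs ⊢
    refine ⟨hs.1.2, ?_, subset_union_right⟩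
    rw [card_union_of_disjoint hs.1.1, hs.2]; omega
  · intro F hF
    simp only [link, mem_filter, mem_univ, true_and] at hF ⊢
    refine ⟨⟨sdiff_disjoint, ?_⟩, ?_⟩
    · rw [sdiff_union_of_subset hF.2.2]; exact hF.1
    · rw [card_sdiff_of_subset hF.2.2, hF.2.1]
  · intro s hs
    simp only [link, mem_filter, mem_univ, true_and] at hs
    exact union_sdiff_cancel_right hs.1.1
  · intro F hF
    simp only [mem_filter] at hF
    exact sdiff_union_of_subset hF.2.2

/-- The number of facets of `K`. -/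
def N (i d : ℕ) : ℕ := (i + 1) ^ (d / i) * (d % i + 1)

lemma N_step {i d m : ℕ} (hm1 : 1 ≤ m) (hmi : m ≤ i) (hmd : m ≤ d) :
    N i d ≤ (m + 1) * N i (d - m) ∧
      (N i d = (m + 1) * N i (d - m) → m = i ∨ m = d % i) := by
  have hi : 0 < i := by omega
  obtain ⟨q, r, hr, hd, hq1, hr1⟩ : ∃ q r, r < i ∧ d = i * q + r ∧ d / i = q ∧ d % i = r :=
    ⟨d / i, d % i, Nat.mod_lt _ hi, (Nat.div_add_mod d i).symm, rfl, rfl⟩
  have hdm : ∀ a b : ℕ, b < i → (i * a + b) / i = a ∧ (i * a + b) % i = b := by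
    intro a b hb
    constructor
    · rw [Nat.mul_add_div hi, Nat.div_eq_of_lt hb, add_zero]
    · rw [Nat.mul_add_mod, Nat.mod_eq_of_lt hb]
  unfold N
  rw [hq1, hr1]
  by_cases hmr : m ≤ r
  · have h1 : d - m = i * q + (r - m) := by omega
    rw [h1, (hdm q (r - m) (by omega)).1, (hdm q (r - m) (by omega)).2]
    obtain ⟨k, rfl⟩ := Nat.exists_eq_add_of_le hmr
    rw [Nat.add_sub_cancel_left]
    have h2 : (m + 1) * ((i + 1) ^ q * (k + 1)) = (i + 1) ^ q * ((m + 1) * (k + 1)) := by ring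
    rw [h2]
    constructor
    · refine Nat.mul_le_mul_left _ ?_
      nlinarith
    · intro h3
      have h4 := Nat.eq_of_mul_eq_mul_left (pow_pos (Nat.succ_pos i) q) h3
      have h5 : m * k = 0 := by nlinarith
      rcases Nat.mul_eq_zero.1 h5 with h6 | h6
      · omega
      · right; omega
  · have hq : 1 ≤ q := by
      rcases Nat.eq_zero_or_pos q with h0 | h0
      · subst h0; omega
      · exact h0
    obtain ⟨p, rfl⟩ := Nat.exists_eq_add_of_le' hq
    have h1 : d - m = i * p + (i + r - m) := by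
      have : i * (p + 1) = i * p + i := by ring
      omega
    rw [h1, (hdm p (i + r - m) (by omega)).1, (hdm p (i + r - m) (by omega)).2]
    obtain ⟨k, rfl⟩ := Nat.exists_eq_add_of_le hmi
    have h7 : m + k + r - m = k + r := by omega
    rw [h7]
    obtain ⟨l, rfl⟩ : ∃ l, m = r + 1 + l := ⟨m - r - 1, by omega⟩
    have h2 : (r + 1 + l + 1) * ((r + 1 + l + k + 1) ^ p * (k + r + 1)) =
        (r + 1 + l + k + 1) ^ p * ((r + 1 + l + 1) * (k + r + 1)) := by ring
    have h3 : (r + 1 + l + k + 1) ^ (p + 1) * (r + 1) =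
        (r + 1 + l + k + 1) ^ p * ((r + 1 + l + k + 1) * (r + 1)) := by ring
    rw [h2, h3]
    constructor
    · refine Nat.mul_le_mul_left _ ?_
      nlinarith
    · intro h4
      have h5 := Nat.eq_of_mul_eq_mul_left (pow_pos (Nat.succ_pos _) p) h4
      have h6 : k * (l + 1) = 0 := by nlinarith
      rcases Nat.mul_eq_zero.1 h6 with h8 | h8
      · left; omega
      · omega

/-- The facets which contain all but one element of the missing face `M`. -/
lemma count_missing {d : ℕ} {Δ : Finset (Finset V)} (hΔ : IsComplex Δ) {M : Finset V}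
    (hM : IsMissingFace Δ M) :
    (M.biUnion fun v => Δ.filter fun F => F.card = d ∧ M.erase v ⊆ F).card =
      ∑ v ∈ M, (Δ.filter fun F => F.card = d ∧ M.erase v ⊆ F).card := by
  refine card_biUnion ?_
  intro u hu v hv huv
  change Disjoint _ _
  rw [disjoint_left]
  intro F hF hF'
  rw [mem_filter] at hF hF'
  refine hM.1 (hΔ.2 F hF.1 _ ?_)
  intro x hx
  by_cases h : x = u
  · exact hF'.2.2 (mem_erase.2 ⟨h ▸ huv, hx⟩)
  · exact hF.2.2 (mem_erase.2 ⟨h, hx⟩)

lemma biUnion_subset_facets {d : ℕ} {Δ : Finset (Finset V)} {M : Finset V} :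
    (M.biUnion fun v => Δ.filter fun F => F.card = d ∧ M.erase v ⊆ F) ⊆
      Δ.filter fun F => F.card = d := by
  intro F hF
  rw [mem_biUnion] at hF
  obtain ⟨v, _, hF⟩ := hF
  rw [mem_filter] at hF ⊢
  exact ⟨hF.1, hF.2.1⟩

lemma facets_ge {i : ℕ} (hi : 1 ≤ i) (d : ℕ) : ∀ {Δ : Finset (Finset V)}, Good i d Δ →
    N i d ≤ fNum Δ d := by
  induction d using Nat.strong_induction_on with
  | _ d ih =>
    intro Δ h
    rcases Nat.eq_zero_or_pos d with rfl | hd
    · have h1 : N i 0 = 1 := by simp [N]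
      rw [h1, fNum, Nat.one_le_iff_ne_zero, ← Nat.pos_iff_ne_zero, card_pos]
      exact ⟨∅, by simp [h.cplx.1]⟩
    · obtain ⟨F, hF, _, hFd⟩ := h.pure ∅ h.cplx.1
      obtain ⟨v, hv⟩ := card_pos.1 (hFd ▸ hd)
      obtain ⟨M, hM, hM2, hvM⟩ := h.exists_missing_of_mem hF hFd hv
      have hMi := h.miss M hM
      have hme : ∀ u ∈ M, (M.erase u).card = M.card - 1 := fun u hu => card_erase_of_mem hu
      have hmd : M.card - 1 ≤ d := by
        rw [← hme v hvM]; exact h.card_le (hM.erase_mem hvM)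
      have h1 := (N_step (i := i) (d := d) (m := M.card - 1) (by omega) (by omega) hmd).1
      refine h1.trans ?_
      rw [show M.card - 1 + 1 = M.card by omega]
      calc M.card * N i (d - (M.card - 1)) = ∑ u ∈ M, N i (d - (M.card - 1)) := by
            rw [sum_const, smul_eq_mul]
        _ ≤ ∑ u ∈ M, (Δ.filter fun F => F.card = d ∧ M.erase u ⊆ F).card := by
            refine sum_le_sum fun u hu => ?_
            rw [← fNum_link (by rw [hme u hu]; exact hmd), hme u hu]
            have h2 := h.link hi (hM.erase_mem hu)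
            rw [hme u hu] at h2
            exact ih _ (by omega) h2
        _ = (M.biUnion fun v => Δ.filter fun F => F.card = d ∧ M.erase v ⊆ F).card :=
            (count_missing h.cplx hM).symm
        _ ≤ fNum Δ d := card_le_card biUnion_subset_facets

/-- A good complex with the smallest number of facets. -/
structure Tight (i d : ℕ) (Δ : Finset (Finset V)) : Prop extends Good i d Δ where
  tight : fNum Δ d = N i d

lemma Tight.of_missing {i d : ℕ} (hi : 1 ≤ i) {Δ : Finset (Finset V)} (h : Tight i d Δ)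
    {M : Finset V} (hM : IsMissingFace Δ M) (hM2 : 2 ≤ M.card) :
    (M.card - 1 = i ∨ M.card - 1 = d % i) ∧
    (∀ v ∈ M, Tight i (d - (M.card - 1)) (link Δ (M.erase v))) ∧
    (∀ F ∈ Δ, F.card = d → ∃ v ∈ M, M.erase v ⊆ F) := by
  have hMi := h.miss M hM
  have hme : ∀ u ∈ M, (M.erase u).card = M.card - 1 := fun u hu => card_erase_of_mem hu
  obtain ⟨v, hvM⟩ : M.Nonempty := card_pos.1 (by omega)
  have hmd : M.card - 1 ≤ d := by
    rw [← hme v hvM]; exact h.card_le (hM.erase_mem hvM)
  have h1 := N_step (i := i) (d := d) (m := M.card - 1) (by omega) (by omega) hmd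
  rw [show M.card - 1 + 1 = M.card by omega] at h1
  have h2 : ∀ u ∈ M, N i (d - (M.card - 1)) ≤
      (Δ.filter fun F => F.card = d ∧ M.erase u ⊆ F).card := by
    intro u hu
    rw [← fNum_link (by rw [hme u hu]; exact hmd), hme u hu]
    have h3 := h.toGood.link hi (hM.erase_mem hu)
    rw [hme u hu] at h3
    exact facets_ge hi _ h3
  have h3 : M.card * N i (d - (M.card - 1)) ≤
      ∑ u ∈ M, (Δ.filter fun F => F.card = d ∧ M.erase u ⊆ F).card := by
    rw [← smul_eq_mul, ← sum_const]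
    exact sum_le_sum h2
  have h4 : ∑ u ∈ M, (Δ.filter fun F => F.card = d ∧ M.erase u ⊆ F).card ≤ fNum Δ d := by
    rw [← count_missing h.cplx hM]
    exact card_le_card biUnion_subset_facets
  have h5 := h.tight
  refine ⟨h1.2 (by omega), ?_, ?_⟩
  · intro u hu
    have h6 : ∑ u ∈ M, N i (d - (M.card - 1)) =
        ∑ u ∈ M, (Δ.filter fun F => F.card = d ∧ M.erase u ⊆ F).card := by
      rw [sum_const, smul_eq_mul]; omega
    have h7 := (sum_eq_sum_iff_of_le h2).1 h6 u hu
    have h8 := h.toGood.link hi (hM.erase_mem hu)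
    rw [hme u hu] at h8
    refine ⟨h8, ?_⟩
    rw [h7, ← fNum_link (by rw [hme u hu]; exact hmd), hme u hu]
  · intro F hF hFd
    have h6 : (M.biUnion fun v => Δ.filter fun F => F.card = d ∧ M.erase v ⊆ F) =
        Δ.filter fun F => F.card = d := by
      refine eq_of_subset_of_card_le biUnion_subset_facets ?_
      rw [count_missing h.cplx hM]
      change fNum Δ d ≤ _
      omega
    have h7 : F ∈ Δ.filter fun F => F.card = d := mem_filter.2 ⟨hF, hFd⟩
    rw [← h6, mem_biUnion] at h7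
    obtain ⟨v, hv, h8⟩ := h7
    exact ⟨v, hv, (mem_filter.1 h8).2.2⟩

end Count


/-! ### Complexes with the smallest number of facets -/

section Structure

variable {V : Type} [Fintype V] [DecidableEq V]

lemma IsMissingFace.not_ssubset {Δ : Finset (Finset V)} {M M' : Finset V}
    (hM : IsMissingFace Δ M) (hM' : IsMissingFace Δ M') (h : M ⊆ M') : M = M' := by
  by_contra hne
  exact hM.1 (hM'.2 M (ssubset_of_subset_of_ne h hne))

lemma Tight.disjoint {i d : ℕ} (hi : 1 ≤ i) {Δ : Finset (Finset V)} (h : Tight i d Δ)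
    {M M' : Finset V} (hM : IsMissingFace Δ M) (hM2 : 2 ≤ M.card)
    (hM' : IsMissingFace Δ M') (hM2' : 2 ≤ M'.card) (hne : M ≠ M') : Disjoint M M' := by
  rw [disjoint_left]
  intro u hu hu'
  obtain ⟨v, hv, hv'⟩ : ∃ v ∈ M, v ∉ M' := by
    by_contra hcon
    push Not at hcon
    exact hne (hM.not_ssubset hM' hcon)
  obtain ⟨F, hF, hMF, hFd⟩ := h.pure _ (hM.erase_mem hu)
  have hcM := (h.of_missing hi hM hM2).2.2
  have hcM' := (h.of_missing hi hM' hM2').2.2
  have huF : u ∉ F := by
    intro h1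
    refine hM.1 (h.cplx.2 F hF _ ?_)
    intro x hx
    by_cases h2 : x = u
    · exact h2 ▸ h1
    · exact hMF (mem_erase.2 ⟨h2, hx⟩)
  obtain ⟨v', hv'M, hv'F⟩ := hcM' F hF hFd
  have h1 : u = v' := by
    by_contra h2
    exact huF (hv'F (mem_erase.2 ⟨h2, hu'⟩))
  subst h1
  have hvu : v ≠ u := fun h2 => hv' (h2 ▸ hu')
  have hvF : v ∈ F := hMF (mem_erase.2 ⟨hvu, hv⟩)
  obtain ⟨w, hw, hw'⟩ := h.flip F hF hFd v hvF
  have hwv : w ≠ v := fun h2 => hw (h2 ▸ hvF)
  have hFd' : (insert w (F.erase v)).card = d := by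
    rw [card_insert_of_notMem (fun h2 => hw (mem_erase.1 h2).2), card_erase_of_mem hvF, hFd]
    have := card_pos.2 ⟨v, hvF⟩
    omega
  obtain ⟨x, hx, hxF⟩ := hcM _ hw' hFd'
  have hxv : v = x := by
    by_contra h2
    have h3 := hxF (mem_erase.2 ⟨h2, hv⟩)
    rcases mem_insert.1 h3 with h4 | h4
    · exact hwv h4.symm
    · exact (mem_erase.1 h4).1 rfl
  subst hxv
  have huw : u = w := by
    have h3 := hxF (mem_erase.2 ⟨hvu.symm, hu⟩)
    rcases mem_insert.1 h3 with h4 | h4
    · exact h4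
    · exact absurd (mem_erase.1 h4).2 huF
  subst huw
  refine hM'.1 (h.cplx.2 _ hw' _ ?_)
  intro y hy
  by_cases h2 : y = u
  · rw [h2]; exact mem_insert_self _ _
  · refine mem_insert_of_mem (mem_erase.2 ⟨fun h3 => hv' (h3 ▸ hy), ?_⟩)
    exact hv'F (mem_erase.2 ⟨h2, hy⟩)

/-- A set of vertices is a face as soon as it contains no missing face. -/
lemma mem_iff_no_missing {Δ : Finset (Finset V)} (hΔ : IsComplex Δ) {s : Finset V}
    (hs : ∀ x ∈ s, {x} ∈ Δ) :
    s ∈ Δ ↔ ∀ M, IsMissingFace Δ M → 2 ≤ M.card → ¬ M ⊆ s := by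
  constructor
  · intro h M hM _ hMs
    exact hM.1 (hΔ.2 s h _ hMs)
  · intro h
    by_contra h1
    obtain ⟨M, hMs, hM⟩ := exists_missing h1
    refine h M hM ?_ hMs
    by_contra h2
    rcases Nat.lt_or_ge M.card 1 with h3 | h3
    · have : M = ∅ := card_eq_zero.1 (by omega)
      exact hM.1 (this ▸ hΔ.1)
    · obtain ⟨x, hx⟩ := card_eq_one.1 (by omega : M.card = 1)
      refine hM.1 ?_
      rw [hx]
      exact hs x (hMs (by rw [hx]; exact mem_singleton_self _))

lemma vertex_of_missing {Δ : Finset (Finset V)} {M : Finset V} (hM : IsMissingFace Δ M)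
    (hM2 : 2 ≤ M.card) {x : V} (hx : x ∈ M) : {x} ∈ Δ := by
  refine hM.2 _ ⟨singleton_subset_iff.2 hx, fun h => ?_⟩
  have := card_le_card h
  rw [card_singleton] at this
  omega

lemma Tight.at_most_one {i d : ℕ} (hi : 1 ≤ i) {Δ : Finset (Finset V)} (h : Tight i d Δ)
    {M M' : Finset V} (hM : IsMissingFace Δ M) (hM2 : 2 ≤ M.card)
    (hM' : IsMissingFace Δ M') (hM2' : 2 ≤ M'.card) (hne : M ≠ M') :
    M.card = i + 1 ∨ M'.card = i + 1 := by
  by_contra hcon
  push Not at hcon
  have h1 := h.of_missing hi hM hM2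
  have hMd : M.card - 1 = d % i := by
    rcases h1.1 with h2 | h2
    · exact absurd (by omega) hcon.1
    · exact h2
  obtain ⟨v, hv⟩ : M.Nonempty := card_pos.1 (by omega)
  have h3 := h1.2.1 v hv
  have hdisj := h.disjoint hi hM hM2 hM' hM2' hne
  have hmiss : IsMissingFace (link Δ (M.erase v)) M' := by
    refine ⟨?_, ?_⟩
    · intro h4
      simp only [link, mem_filter, mem_univ, true_and] at h4
      exact hM'.1 (h.cplx.2 _ h4.2 _ subset_union_left)
    · intro t ht
      simp only [link, mem_filter, mem_univ, true_and]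
      refine ⟨?_, ?_⟩
      · exact (hdisj.symm.mono_left ht.subset).mono_right (erase_subset _ _)
      · rw [mem_iff_no_missing h.cplx]
        · intro M₃ hM₃ hM₃2 hsub
          obtain ⟨x, hx⟩ : M₃.Nonempty := card_pos.1 (by omega)
          rcases mem_union.1 (hsub hx) with h5 | h5
          · have h6 : M₃ = M' := by
              by_contra h7
              exact disjoint_left.1 (h.disjoint hi hM₃ hM₃2 hM' hM2' h7) hx (ht.subset h5)
            subst h6
            refine ht.2 ?_
            intro y hy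
            rcases mem_union.1 (hsub hy) with h7 | h7
            · exact h7
            · exact absurd hy (disjoint_left.1 hdisj (mem_erase.1 h7).2)
          · have h6 : M₃ = M := by
              by_contra h7
              exact disjoint_left.1 (h.disjoint hi hM₃ hM₃2 hM hM2 h7) hx (mem_erase.1 h5).2
            subst h6
            rcases mem_union.1 (hsub hv) with h7 | h7
            · exact disjoint_left.1 hdisj hv (ht.subset h7)
            · exact (mem_erase.1 h7).1 rfl
        · intro x hx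
          rcases mem_union.1 hx with h5 | h5
          · exact vertex_of_missing hM' hM2' (ht.subset h5)
          · exact vertex_of_missing hM hM2 (mem_erase.1 h5).2
  have h4 := (h3.of_missing hi hmiss hM2').1
  rcases h4 with h5 | h5
  · exact hcon.2 (by omega)
  · rw [hMd] at h5
    have h6 : (d - d % i) % i = 0 := by
      have h7 : d - d % i = i * (d / i) := by
        have := Nat.div_add_mod d i
        omega
      rw [h7, Nat.mul_mod_right]
    omega

open Classical in
/-- The missing faces with at least two vertices. -/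
noncomputable def miss2 (Δ : Finset (Finset V)) : Finset (Finset V) :=
  univ.filter fun M => IsMissingFace Δ M ∧ 2 ≤ M.card

lemma mem_miss2 {Δ : Finset (Finset V)} {M : Finset V} :
    M ∈ miss2 Δ ↔ IsMissingFace Δ M ∧ 2 ≤ M.card := by
  simp [miss2]

lemma Tight.sum_miss2 {i d : ℕ} (hi : 1 ≤ i) {Δ : Finset (Finset V)} (h : Tight i d Δ) :
    ∑ M ∈ miss2 Δ, (M.card - 1) = d := by
  obtain ⟨F, hF, _, hFd⟩ := h.pure ∅ h.cplx.1
  have h1 : F = (miss2 Δ).biUnion fun M => F ∩ M := by
    ext x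
    rw [mem_biUnion]
    constructor
    · intro hx
      obtain ⟨M, hM, hM2, hxM⟩ := h.exists_missing_of_mem hF hFd hx
      exact ⟨M, mem_miss2.2 ⟨hM, hM2⟩, mem_inter.2 ⟨hx, hxM⟩⟩
    · rintro ⟨M, _, hx⟩
      exact (mem_inter.1 hx).1
  have h2 : ((miss2 Δ).biUnion fun M => F ∩ M).card = ∑ M ∈ miss2 Δ, (F ∩ M).card := by
    refine card_biUnion ?_
    intro M hM M' hM' hne
    rw [Finset.mem_coe, mem_miss2] at hM hM'
    exact (h.disjoint hi hM.1 hM.2 hM'.1 hM'.2 hne).mono inter_subset_right inter_subset_right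
  rw [← h1, hFd] at h2
  rw [h2]
  refine sum_congr rfl fun M hM => ?_
  rw [mem_miss2] at hM
  obtain ⟨v, hv, hvF⟩ := (h.of_missing hi hM.1 hM.2).2.2 F hF hFd
  have hvF' : v ∉ F := by
    intro h3
    refine hM.1.1 (h.cplx.2 F hF _ ?_)
    intro x hx
    by_cases h4 : x = v
    · exact h4 ▸ h3
    · exact hvF (mem_erase.2 ⟨h4, hx⟩)
  have h5 : F ∩ M = M.erase v := by
    ext x
    rw [mem_inter, mem_erase]
    constructor
    · rintro ⟨h6, h7⟩
      exact ⟨fun h8 => hvF' (h8 ▸ h6), h7⟩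
    · rintro ⟨h6, h7⟩
      exact ⟨hvF (mem_erase.2 ⟨h6, h7⟩), h7⟩
  rw [h5, card_erase_of_mem hv]

/-- uniqueness of the division with remainder in `[1, i]` -/
lemma div_unique {i q r q' r' : ℕ} (hr : 1 ≤ r) (hri : r ≤ i) (hr' : 1 ≤ r') (hri' : r' ≤ i)
    (h : q * i + r = q' * i + r') : q = q' ∧ r = r' := by
  have h1 : q = q' := by
    rcases Nat.lt_trichotomy q q' with h2 | h2 | h2
    · exfalso
      have h3 : (q + 1) * i ≤ q' * i := Nat.mul_le_mul_right i h2
      rw [add_mul, one_mul] at h3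
      omega
    · exact h2
    · exfalso
      have h3 : (q' + 1) * i ≤ q * i := Nat.mul_le_mul_right i h2
      rw [add_mul, one_mul] at h3
      omega
  subst h1
  exact ⟨rfl, by omega⟩

/-- The blocks of a tight complex. -/
lemma Tight.blocks {i q r : ℕ} (hr : 1 ≤ r) (hri : r ≤ i) {Δ : Finset (Finset V)}
    (h : Tight i (q * i + r) Δ) :
    ∃ B : Fin (q + 1) → Finset V, Function.Injective B ∧
      (∀ M, M ∈ miss2 Δ ↔ ∃ j, B j = M) ∧ ∀ j, (B j).card = blockSize q i r j := by
  have hi : 1 ≤ i := hr.trans hri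
  have hsum := h.sum_miss2 hi
  have hne : (miss2 Δ).Nonempty := by
    rw [nonempty_iff_ne_empty]
    intro h1
    rw [h1, sum_empty] at hsum
    omega
  obtain ⟨M₀, hM₀, hM₀'⟩ : ∃ M₀ ∈ miss2 Δ, ∀ M ∈ miss2 Δ, M ≠ M₀ → M.card = i + 1 := by
    by_cases h1 : ∃ M ∈ miss2 Δ, M.card ≠ i + 1
    · obtain ⟨M₀, hM₀, h2⟩ := h1
      refine ⟨M₀, hM₀, fun M hM hne => ?_⟩
      rw [mem_miss2] at hM₀ hM
      rcases h.at_most_one hi hM.1 hM.2 hM₀.1 hM₀.2 hne with h3 | h3
      · exact h3
      · exact absurd h3 h2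
    · push Not at h1
      obtain ⟨M₀, hM₀⟩ := hne
      exact ⟨M₀, hM₀, fun M hM _ => h1 M hM⟩
  have hM₀2 := (mem_miss2.1 hM₀).2
  have hM₀i := h.miss M₀ (mem_miss2.1 hM₀).1
  have h2 : ((miss2 Δ).erase M₀).card * i + (M₀.card - 1) = q * i + r := by
    rw [← hsum, ← sum_erase_add _ _ hM₀]
    congr 1
    rw [← smul_eq_mul, ← sum_const]
    refine sum_congr rfl fun M hM => ?_
    rw [mem_erase] at hM
    rw [hM₀' M hM.2 hM.1, Nat.add_sub_cancel]
  obtain ⟨hq, hr2⟩ := div_unique (by omega) (by omega) hr hri h2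
  let e := ((miss2 Δ).erase M₀).equivFinOfCardEq hq
  have he : ∀ j, (e.symm j : Finset V) ∈ miss2 Δ ∧ (e.symm j : Finset V) ≠ M₀ := by
    intro j
    have := (e.symm j).2
    rw [mem_erase] at this
    exact ⟨this.2, this.1⟩
  refine ⟨fun j => if hj : j.val < q then (e.symm ⟨j.val, hj⟩ : Finset V) else M₀, ?_, ?_, ?_⟩
  · intro j k hjk
    simp only at hjk
    by_cases hj : j.val < q
    · by_cases hk : k.val < q
      · rw [dif_pos hj, dif_pos hk] at hjk
        have h3 := e.symm.injective (Subtype.ext hjk)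
        exact Fin.ext (Fin.mk.inj h3)
      · rw [dif_pos hj, dif_neg hk] at hjk
        exact absurd hjk (he _).2
    · by_cases hk : k.val < q
      · rw [dif_neg hj, dif_pos hk] at hjk
        exact absurd hjk.symm (he _).2
      · exact Fin.ext (by omega)
  · intro M
    constructor
    · intro hM
      by_cases hMM : M = M₀
      · exact ⟨Fin.last q, by simp [hMM]⟩
      · have h3 : M ∈ (miss2 Δ).erase M₀ := mem_erase.2 ⟨hMM, hM⟩
        refine ⟨(e ⟨M, h3⟩).castSucc, ?_⟩
        simp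
    · rintro ⟨j, rfl⟩
      simp only
      split_ifs with hj
      · exact (he _).1
      · exact hM₀
  · intro j
    simp only [blockSize]
    split_ifs with hj
    · exact hM₀' _ (he _).1 (he _).2
    · omega

theorem Tight.isomorphic {i q r : ℕ} (hr : 1 ≤ r) (hri : r ≤ i) {Δ : Finset (Finset V)}
    (h : Tight i (q * i + r) Δ) : Isomorphic Δ (K q i r) := by
  classical
  have hi : 1 ≤ i := hr.trans hri
  obtain ⟨B, hBinj, hB, hBcard⟩ := h.blocks hr hri
  have hBm : ∀ j, IsMissingFace Δ (B j) ∧ 2 ≤ (B j).card := fun j =>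
    mem_miss2.1 ((hB _).2 ⟨j, rfl⟩)
  let ε : ∀ j, B j ≃ Fin (blockSize q i r j) := fun j => (B j).equivFinOfCardEq (hBcard j)
  -- the vertices
  let φ₀ : (Σ j, B j) → {v : V // {v} ∈ Δ} := fun p =>
    ⟨p.2.1, vertex_of_missing (hBm p.1).1 (hBm p.1).2 p.2.2⟩
  have hφ₀ : Function.Bijective φ₀ := by
    constructor
    · rintro ⟨j, x, hx⟩ ⟨k, y, hy⟩ hxy
      have hxy' : x = y := congrArg Subtype.val hxy
      subst hxy'
      have hjk : j = k := by
        by_contra hne
        exact disjoint_left.1 (h.disjoint hi (hBm j).1 (hBm j).2 (hBm k).1 (hBm k).2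
          (fun h1 => hne (hBinj h1))) hx hy
      subst hjk
      rfl
    · rintro ⟨v, hv⟩
      obtain ⟨F, hF, hvF, hFd⟩ := h.pure _ hv
      obtain ⟨M, hM, hM2, hvM⟩ := h.exists_missing_of_mem hF hFd (singleton_subset_iff.1 hvF)
      obtain ⟨j, rfl⟩ := (hB M).1 (mem_miss2.2 ⟨hM, hM2⟩)
      exact ⟨⟨j, v, hvM⟩, rfl⟩
  let φ : (Σ j, B j) ≃ {v : V // {v} ∈ Δ} := Equiv.ofBijective φ₀ hφ₀
  let ψ : {v : V // {v} ∈ Δ} ≃ KV q i r := φ.symm.trans (Equiv.sigmaCongrRight ε)
  have hψ : ∀ j (x : B j), ψ (φ₀ ⟨j, x⟩) = ⟨j, ε j x⟩ := by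
    intro j x
    have : φ.symm (φ₀ ⟨j, x⟩) = ⟨j, x⟩ := φ.symm_apply_apply ⟨j, x⟩
    simp only [ψ, Equiv.trans_apply, this]
    rfl
  have hKv : ∀ w : KV q i r, ({w} : Finset (KV q i r)) ∈ K q i r := by
    rintro ⟨j, x⟩
    simp only [K, mem_filter, mem_univ, true_and]
    intro k
    have h2 : 1 < Fintype.card (Fin (blockSize q i r k)) := by
      rw [Fintype.card_fin]; unfold blockSize; split_ifs <;> omega
    by_cases hjk : j = k
    · subst hjk
      obtain ⟨y, hy⟩ := Fintype.exists_ne_of_one_lt_card h2 x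
      refine ⟨y, ?_⟩
      rw [mem_singleton]
      intro h3
      exact hy (eq_of_heq (Sigma.mk.inj h3).2)
    · refine ⟨⟨0, by rw [Fintype.card_fin] at h2; omega⟩, ?_⟩
      rw [mem_singleton]
      intro h3
      exact hjk (Sigma.mk.inj h3).1.symm
  let χ : KV q i r ≃ {w : KV q i r // {w} ∈ K q i r} := (Equiv.subtypeUnivEquiv hKv).symm
  refine ⟨ψ.trans χ, fun s => ?_⟩
  rw [mem_iff_no_missing h.cplx]
  · have h1 : (s.map (ψ.trans χ).toEmbedding).map (Function.Embedding.subtype _) =
        s.map ψ.toEmbedding := by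
      rw [map_map]
      rfl
    rw [h1]
    simp only [K, mem_filter, mem_univ, true_and]
    constructor
    · intro h2 j
      have h3 := h2 (B j) (hBm j).1 (hBm j).2
      rw [not_subset] at h3
      obtain ⟨x, hx, hxs⟩ := h3
      refine ⟨ε j ⟨x, hx⟩, ?_⟩
      intro h4
      apply hxs
      rw [← hψ j ⟨x, hx⟩] at h4
      rw [mem_map_equiv, Equiv.symm_apply_apply] at h4
      exact mem_map.2 ⟨_, h4, rfl⟩
    · intro h2 M hM hM2 hMs
      obtain ⟨j, rfl⟩ := (hB M).1 (mem_miss2.2 ⟨hM, hM2⟩)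
      obtain ⟨y, hy⟩ := h2 j
      apply hy
      have h3 : (⟨j, y⟩ : KV q i r) = ψ (φ₀ ⟨j, (ε j).symm y⟩) := by
        rw [hψ, Equiv.apply_symm_apply]
      rw [h3, mem_map_equiv, Equiv.symm_apply_apply]
      have h4 := hMs ((ε j).symm y).2
      rw [mem_map] at h4
      obtain ⟨z, hz, hz'⟩ := h4
      have h5 : φ₀ ⟨j, (ε j).symm y⟩ = z := Subtype.ext hz'.symm
      rw [h5]; exact hz
  · intro x hx
    rw [mem_map] at hx
    obtain ⟨z, _, rfl⟩ := hx
    exact z.2

end Structure

/-- **The equality case of the conjectured inequalities `g_j(Δ) ≥ g_j(K(i, d-1))`.** Let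
`d = q * i + r` with `1 ≤ r ≤ i`. Every `(d-1)`-sphere `Δ ∈ S(i, d-1)` with
`g_j(Δ) = g_j(K(i, d-1))` for all `0 ≤ j ≤ d / 2` is isomorphic to `K(i, d-1)`. -/
theorem main (i q r : ℕ) (hr : 1 ≤ r) (hri : r ≤ i) (V : Type) [Fintype V] [DecidableEq V]
    (Δ : Finset (Finset V)) (hΔ : InClassS i (q * i + r) Δ)
    (hg : ∀ j ≤ (q * i + r) / 2, gNum Δ (q * i + r) j = gNum (K q i r) (q * i + r) j) :
    Isomorphic Δ (K q i r) := by
  have hi : 1 ≤ i := hr.trans hri
  have hgood := good_of_inClassS hΔ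
  have h1 : fNum Δ (q * i + r) = fNum (K q i r) (q * i + r) :=
    fNum_eq_of_gNum_eq hΔ.1.1 (K_isComplex q i r hi hr) (fun s hs => hgood.card_le hs)
      (eulerian_of_sphere hΔ.1) (fun s hs => K_card_le hs) (K_eulerian hi hr) hg
  have h2 := facets_ge hi _ hgood
  have h3 : N i (q * i + r) = (i + 1) ^ q * (r + 1) := by
    unfold N
    rcases Nat.lt_or_ge r i with h4 | h4
    · rw [mul_comm q i, Nat.mul_add_div (by omega), Nat.div_eq_of_lt h4, add_zero,
        Nat.mul_add_mod, Nat.mod_eq_of_lt h4]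
    · have h5 : r = i := le_antisymm hri h4
      subst h5
      have h6 : q * r + r = r * (q + 1) := by ring
      rw [h6, Nat.mul_div_cancel_left _ (by omega), Nat.mul_mod_right]
      ring
  have h4 := K_fNum_le (q := q) (i := i) (r := r)
  exact Tight.isomorphic hr hri ⟨hgood, by omega⟩

end Pool.Agent.Zk84.MissingFaces
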